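import Pool.Agent.W687.OpenMulC

set_option autoImplicit false

/-!
# Multiplication in the complex algebra `C(X)` is uniformly open when `dim X ≤ 1`

Let `ρ > 0` and `‖h - f g‖ < ρ²`.  At every point `x` there is `z` with `|z| < ρ` and
`(f(x) + z)(g(x) + z) = h(x)`.  Two points of the fibre `{(p, q) : p q = c}` which are `r`-close to
`(f(x), g(x))` can be joined in this fibre by a path which is `7r`-close to `(f(x), g(x))`
(`joined_fibre`; here the scalars are complex).  On a fine open cover of order two one can therefore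
glue the local solutions by a partition of unity along the edges of the nerve (`exists_glue`): this
gives `a, b` with `‖a - f‖, ‖b - g‖ ≤ 8ρ` and `‖h - a b‖` as small as we like (`approx`).  Iterating
with `ρ, ρ/2, ρ/4, …` one gets an exact solution with `‖a - f‖, ‖b - g‖ ≤ 16ρ` (`exact`).
-/

namespace Pool.Agent.Results.MP_64150f_an.OpenMultiplicationDimOne

open Pool.Agent.W687.OpenMul Set Topology

universe u

theorem result (X : Type u) [TopologicalSpace X] [CompactSpace X] [T2Space X]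
    (hX : CovDimLE 1 X) :
    IsOpenMap (fun p : C(X, ℂ) × C(X, ℂ) => p.1 * p.2) ∧
    ∀ (f g h : C(X, ℂ)) (ε : ℝ), 0 < ε → ‖h - f * g‖ < (ε / 17) ^ 2 →
      ∃ a b : C(X, ℂ), ‖a - f‖ < ε ∧ ‖b - g‖ < ε ∧ a * b = h := by
  have main : ∀ (f g h : C(X, ℂ)) (ε : ℝ), 0 < ε → ‖h - f * g‖ < (ε / 17) ^ 2 →
      ∃ a b : C(X, ℂ), ‖a - f‖ < ε ∧ ‖b - g‖ < ε ∧ a * b = h := by
    intro f g h ε hε hlt
    obtain ⟨a, b, h1, h2, h3⟩ := Pool.Agent.W687.OpenMul.exact hX f g h
      (ρ := ε / 17) (by positivity) hlt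
    exact ⟨a, b, by linarith, by linarith, h3⟩
  refine ⟨?_, main⟩
  rw [isOpenMap_iff_nhds_le]
  rintro ⟨f, g⟩
  intro s hs
  rw [Filter.mem_map] at hs
  obtain ⟨ε, hε, hball⟩ := Metric.mem_nhds_iff.1 hs
  refine Metric.mem_nhds_iff.2 ⟨(ε / 17) ^ 2, by positivity, ?_⟩
  intro h hh
  rw [Metric.mem_ball, dist_eq_norm] at hh
  obtain ⟨a, b, h1, h2, h3⟩ := main f g h ε hε hh
  have hab : (a, b) ∈ Metric.ball (f, g) ε := by
    rw [Metric.mem_ball, Prod.dist_eq, dist_eq_norm, dist_eq_norm]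
    exact max_lt h1 h2
  have := hball hab
  simpa [h3] using this

end Pool.Agent.Results.MP_64150f_an.OpenMultiplicationDimOne
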